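import Pool.Agent.Results.MP_d6e134_ag.GenericMembers

/-!
Murre's conjecture (B) for all Chow-Kuenneth decompositions of very general complete intersections in
a variety with finite-dimensional motive.
-/

set_option autoImplicit false

open CategoryTheory Finset

namespace Pool.Agent.H49.CompleteIntersections

universe u

section defs

variable {C : Type u} [Category.{0} C] [Preadditive C]

/-- the endomorphism `a` is homologically trivial: it acts as zero on cohomology -/
def HomTrivial (H : ℕ → C ⥤ ModuleCat.{0} ℚ) {X : C} (a : End X) : Prop := ∀ j, (H j).map a = 0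

/-- `π 0, ..., π (2 d)` is a Chow-Kuenneth decomposition of `X` (and `π i = 0` beyond). -/
structure IsCK (H : ℕ → C ⥤ ModuleCat.{0} ℚ) {X : C} (d : ℕ) (π : ℕ → End X) : Prop where
  idem : ∀ i, π i * π i = π i
  orth : ∀ i j, i ≠ j → π i * π j = 0
  sum : ∑ i ∈ range (2 * d + 1), π i = 1
  top : ∀ i, 2 * d < i → π i = 0
  act : ∀ i, (H i).map (π i) = 𝟙 _
  act_ne : ∀ i j, j ≠ i → (H j).map (π i) = 0

/-- `F^k CH^i(X)` for the decomposition `π`: the image of `π^{2i-k} + ... + π^0`, and `0` if
`2i - k < 0`. -/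
def F (CH : ℕ → C ⥤ ModuleCat.{0} ℚ) {X : C} (π : ℕ → End X) (k i : ℕ) : Set ((CH i).obj X) :=
  if k ≤ 2 * i then Set.range ((CH i).map (∑ m ∈ range (2 * i - k + 1), π m : End X)) else {0}

/-- the conclusion of Murre's conjecture (B) for the decomposition `π` of `X` -/
def Murre (CH : ℕ → C ⥤ ModuleCat.{0} ℚ) {X : C} (π : ℕ → End X) : Prop :=
  ∀ i, F CH π 0 i = Set.univ ∧ F CH π (i + 1) i = {0}

end defs

variable {C : Type u} [Category.{0} C] [Preadditive C]

/-- the action of the endomorphism ring -/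
private def act (T : C ⥤ ModuleCat.{0} ℚ) [T.Additive] (X : C) : End X →+* Module.End ℚ (T.obj X) where
  toFun a := (T.map a).hom
  map_one' := by
    rw [End.one_def, T.map_id]
    rfl
  map_mul' a b := by
    rw [End.mul_def, T.map_comp]
    rfl
  map_zero' := by
    have : T.map (0 : X ⟶ X) = 0 := T.map_zero X X
    exact congrArg ModuleCat.Hom.hom this
  map_add' a b := by
    have : T.map ((a : X ⟶ X) + b) = T.map a + T.map b := T.map_add
    exact congrArg ModuleCat.Hom.hom this

/-- pairs of elements -/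
private theorem pairs (H : ℕ → C ⥤ ModuleCat.{0} ℚ) {P : C} (S : End P → Prop)
    (hS : ∀ a b : End P, S a → S b → HomTrivial H (a * b)) :
    ∀ (m : ℕ) (l : List (End P)), l.length = 2 * m → (∀ a ∈ l, S a) →
      ∃ l' : List (End P), l'.length = m ∧ (∀ a ∈ l', HomTrivial H a) ∧ l'.prod = l.prod := by
  intro m
  induction m with
  | zero =>
    intro l hl _
    have h0 : l = [] := List.eq_nil_of_length_eq_zero (by simpa using hl)
    subst h0
    exact ⟨[], rfl, fun a ha => absurd ha List.not_mem_nil, rfl⟩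
  | succ m ih =>
    intro l hl hlS
    match l, hl, hlS with
    | a :: b :: t, hl, hlS =>
      obtain ⟨l', h1, h2, h3⟩ := ih t (by simp only [List.length_cons] at hl; omega)
        (fun c hc => hlS c (List.mem_cons_of_mem _ (List.mem_cons_of_mem _ hc)))
      refine ⟨(a * b) :: l', by rw [List.length_cons, h1], ?_, ?_⟩
      · intro c hc
        rcases List.mem_cons.1 hc with rfl | hc
        · exact hS a b (hlS a List.mem_cons_self) (hlS b (List.mem_cons_of_mem _ List.mem_cons_self))
        · exact h2 c hc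
      · rw [List.prod_cons, List.prod_cons, List.prod_cons, h3, mul_assoc]

/-- the endomorphism `i^* α i_*` of `X` -/
private def phi {X P P' : C} (iu : P ⟶ X) (il : X ⟶ P') (α : P' ⟶ P) : End X := il ≫ α ≫ iu

/-- the endomorphism `α i_* i^*` of `P` -/
private def eps {X P P' : C} (iu : P ⟶ X) (il : X ⟶ P') (α : P' ⟶ P) : End P := iu ≫ il ≫ α

private theorem phi_mul {X P P' : C} (iu : P ⟶ X) (il : X ⟶ P') (α β : P' ⟶ P) (e : End P) :
    phi iu il α * phi iu il (β ≫ e) = phi iu il (β ≫ (eps iu il α * e : End P)) := by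
  rw [End.mul_def, End.mul_def]
  simp only [phi, eps, Category.assoc]

/-- Let `X` be (the motive over an algebraic closure of the function field of the parameter space of)
a very general complete intersection in `P`, with `P'` a twist of `P`, and `i_* : X ⟶ P'`,
`i^* : P ⟶ X`. Suppose that the homologically trivial endomorphisms of `P` form a nilpotent ring and
that the endomorphisms of `X` that are invariant under the Galois group `Γ` are of the form
`q + i^* α i_*`. Then all homologically trivial endomorphisms of `X` are nilpotent, any two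
Chow-Kuenneth decompositions of `X` are conjugate, and Murre's conjecture (B) holds for all of them
if it holds for one. -/
theorem result [Linear ℚ C] (CH H : ℕ → C ⥤ ModuleCat.{0} ℚ) [∀ i, (CH i).Additive]
    [∀ j, (H j).Additive] [∀ j, (H j).Linear ℚ] {X P P' : C} (iu : P ⟶ X) (il : X ⟶ P')
    {Γ : Type} [Group Γ] [MulSemiringAction Γ (End X)] (d : ℕ)
    (horb : ∀ a : End X, (MulAction.orbit Γ a).Finite)
    (hhom : ∀ (γ : Γ) (a : End X), HomTrivial H a → HomTrivial H (γ • a))
    (hP : ∃ m : ℕ, ∀ l : List (End P), l.length = m → (∀ a ∈ l, HomTrivial H a) → l.prod = 0)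
    (hgen : ∀ a : End X, (∀ γ : Γ, γ • a = a) → ∃ (q : ℚ) (α : P' ⟶ P), a = q • 𝟙 X + il ≫ α ≫ iu)
    (hvan : ∃ (j : ℕ) (x : (H j).obj X), x ≠ 0 ∧ (H j).map il x = 0) :
    (∀ a : End X, HomTrivial H a → IsNilpotent a) ∧
    (∀ π ρ : ℕ → End X, IsCK H d π → IsCK H d ρ →
      ∃ u : (End X)ˣ, HomTrivial H ((u : End X) - 1) ∧
        ∀ m, ρ m = u * π m * ((u⁻¹ : (End X)ˣ) : End X)) ∧
    ((∃ π : ℕ → End X, IsCK H d π ∧ Murre CH π) → ∀ ρ : ℕ → End X, IsCK H d ρ → Murre CH ρ) := by
  let mH : ∀ j, Module (End X) ((H j).obj X) := fun j => Module.compHom _ (act (H j) X)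
  let mC : ∀ i, Module (End X) ((CH i).obj X) := fun i => Module.compHom _ (act (CH i) X)
  have sH : ∀ j (a : End X) (x : (H j).obj X), a • x = (H j).map a x := fun j a x => rfl
  have sC : ∀ i (a : End X) (x : (CH i).obj X), a • x = (CH i).map a x := fun i a x => rfl
  have eHT : ∀ a : End X, Pool.Agent.Results.MP_d6e134_ag.GenericMembers.HomTrivial (fun j => (H j).obj X) a ↔ HomTrivial H a := by
    intro a
    constructor
    · intro h j
      ext x
      exact h j x
    · intro h j x
      rw [sH, h j]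
      rfl
  have eCK : ∀ π : ℕ → End X, Pool.Agent.Results.MP_d6e134_ag.GenericMembers.IsCK (fun j => (H j).obj X) d π ↔ IsCK H d π := by
    intro π
    constructor
    · rintro ⟨h1, h2, h3, h4, h5, h6⟩
      refine ⟨h1, h2, h3, h4, fun i => ?_, fun i j hij => ?_⟩
      · ext x
        exact h5 i x
      · ext x
        exact h6 i j x hij
    · rintro ⟨h1, h2, h3, h4, h5, h6⟩
      refine ⟨h1, h2, h3, h4, fun i x => ?_, fun i j x hij => ?_⟩
      · rw [sH, h5 i]
        rfl
      · rw [sH, h6 i j hij]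
        rfl
  have eM : ∀ π : ℕ → End X, Pool.Agent.Results.MP_d6e134_ag.GenericMembers.Murre (fun i => (CH i).obj X) π ↔ Murre CH π :=
    fun π => Iff.rfl
  obtain ⟨m, hm⟩ := hP
  obtain ⟨j0, x0, hx0, hx1⟩ := hvan
  -- the invariant homologically trivial endomorphisms form a nilpotent ring
  have hgenN : ∃ m : ℕ, ∀ l : List (End X), l.length = m →
      (∀ a ∈ l, Pool.Agent.Results.MP_d6e134_ag.GenericMembers.HomTrivial (fun j => (H j).obj X) a ∧ ∀ γ : Γ, γ • a = a) → l.prod = 0 := by
    refine ⟨2 * m + 1, fun l hl hlN => ?_⟩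
    have hform : ∀ a ∈ l, ∃ α : P' ⟶ P, a = il ≫ α ≫ iu ∧ HomTrivial H a := by
      intro a ha
      obtain ⟨h1, h2⟩ := hlN a ha
      obtain ⟨q, α, hq⟩ := hgen a h2
      have h3 : HomTrivial H a := (eHT a).1 h1
      have h4 : (H j0).map a x0 = 0 := by
        rw [h3 j0]
        rfl
      have h5 : (H j0).map (q • 𝟙 X + il ≫ α ≫ iu) = q • 𝟙 _ + (H j0).map il ≫ (H j0).map (α ≫ iu) := by
        rw [(H j0).map_add, (H j0).map_smul, (H j0).map_id, (H j0).map_comp]
      have h6 : (H j0).map a x0 = q • x0 := by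
        rw [hq, h5]
        have h7 : (q • 𝟙 ((H j0).obj X) + (H j0).map il ≫ (H j0).map (α ≫ iu)) x0 =
            q • x0 + (H j0).map (α ≫ iu) ((H j0).map il x0) := rfl
        rw [h7, hx1, map_zero, add_zero]
      rw [h4] at h6
      have hq0 : q = 0 := by
        rcases smul_eq_zero.1 h6.symm with h | h
        · exact h
        · exact absurd h hx0
      refine ⟨α, ?_, h3⟩
      rw [hq, hq0, zero_smul, zero_add]
    -- product formula
    have hprod : ∀ (l : List (End X)), (∀ a ∈ l, ∃ α : P' ⟶ P, a = phi iu il α ∧ HomTrivial H a) →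
        ∃ l' : List (End P), l'.length = l.length ∧
          (∀ e ∈ l', ∃ α : P' ⟶ P, HomTrivial H (phi iu il α) ∧ e = eps iu il α) ∧
          ∀ β : P' ⟶ P, l.prod * phi iu il β = phi iu il (β ≫ l'.prod) := by
      intro l
      induction l with
      | nil =>
        intro _
        refine ⟨[], rfl, fun e he => absurd he List.not_mem_nil, fun β => ?_⟩
        rw [List.prod_nil, one_mul, List.prod_nil, End.one_def, Category.comp_id]
      | cons a l ih =>
        intro h
        obtain ⟨l', h1, h2, h3⟩ := ih fun b hb => h b (List.mem_cons_of_mem a hb)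
        obtain ⟨α, ha1, ha2⟩ := h a List.mem_cons_self
        refine ⟨eps iu il α :: l', by rw [List.length_cons, List.length_cons, h1], ?_, fun β => ?_⟩
        · intro e he
          rcases List.mem_cons.1 he with rfl | he
          · exact ⟨α, by rw [← ha1]; exact ha2, rfl⟩
          · exact h2 e he
        · rw [List.prod_cons, mul_assoc, h3 β, ha1, List.prod_cons, phi_mul]
    have hne : l ≠ [] := by
      rintro rfl
      simp at hl
    obtain ⟨t, b, rfl⟩ : ∃ t b, l = t ++ [b] := ⟨l.dropLast, l.getLast hne, (List.dropLast_append_getLast hne).symm⟩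
    obtain ⟨β, hb1, -⟩ := hform b (List.mem_append_right t List.mem_cons_self)
    obtain ⟨l', h1, h2, h3⟩ := hprod t fun a ha => hform a (List.mem_append_left _ ha)
    have ht : l'.length = 2 * m := by
      rw [h1]
      rw [List.length_append, List.length_singleton] at hl
      omega
    obtain ⟨l'', k1, k2, k3⟩ := pairs H
      (fun e => ∃ α : P' ⟶ P, HomTrivial H (phi iu il α) ∧ e = eps iu il α)
      (by
        rintro _ _ ⟨α, hα, rfl⟩ ⟨β, hβ, rfl⟩ j
        have e : (eps iu il α * eps iu il β : End P) = (iu ≫ (phi iu il β : X ⟶ X) ≫ il ≫ α : P ⟶ P) := by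
          rw [End.mul_def]
          simp only [phi, eps, Category.assoc]
        have h4 : (H j).map (phi iu il β : X ⟶ X) = 0 := hβ j
        rw [e, (H j).map_comp, (H j).map_comp, h4, Limits.zero_comp, Limits.comp_zero]) m l' ht h2
    have hb2 : b = phi iu il β := hb1
    rw [List.prod_append, List.prod_singleton, hb2, h3 β, ← k3, hm l'' k1 k2]
    have h5 : β ≫ (0 : P ⟶ P) = 0 := Limits.comp_zero
    change il ≫ (β ≫ (0 : P ⟶ P)) ≫ iu = 0
    rw [h5, Limits.zero_comp, Limits.comp_zero]
  have hhom' : ∀ (γ : Γ) (a : End X), Pool.Agent.Results.MP_d6e134_ag.GenericMembers.HomTrivial (fun j => (H j).obj X) a →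
      Pool.Agent.Results.MP_d6e134_ag.GenericMembers.HomTrivial (fun j => (H j).obj X) (γ • a) :=
    fun γ a ha => (eHT _).2 (hhom γ a ((eHT a).1 ha))
  obtain ⟨r1, r2, r3⟩ := Pool.Agent.Results.MP_d6e134_ag.GenericMembers.result (fun i => (CH i).obj X) (fun j => (H j).obj X) d horb
    hhom' hgenN
  refine ⟨fun a ha => r1 a ((eHT a).2 ha), fun π ρ h h' => ?_, ?_⟩
  · obtain ⟨u, hu1, hu2⟩ := r2 π ρ ((eCK π).2 h) ((eCK ρ).2 h')
    exact ⟨u, (eHT _).1 hu1, hu2⟩
  · rintro ⟨π, h, hM⟩ ρ h'
    exact r3 ⟨π, (eCK π).2 h, hM⟩ ρ ((eCK ρ).2 h')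

end Pool.Agent.H49.CompleteIntersections
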